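import Pool.Agent.Run7.h604.HN.Fam

/-!
# The middle numbers decide
-/

set_option autoImplicit false

namespace Pool.Agent.Run7.h604.HN

universe u

namespace Fam

variable (F : Fam.{u})

theorem ev_ge (V : F.Var) {x y c : ℝ} (hc : 0 ≤ c) (hx : c ≤ x) (hx1 : x ≤ 1) (hy : c ≤ y)
    (hy1 : y ≤ 1) : c ^ (F.dp V + F.dq V) * F.ev V 1 1 ≤ F.ev V x y := by
  rw [F.ev_eq, F.ev_eq, Finset.mul_sum]
  refine Finset.sum_le_sum fun s hs => ?_
  unfold ind at hs
  rw [Finset.mem_product, Finset.mem_range, Finset.mem_range] at hs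
  simp only [one_pow, mul_one]
  rw [mul_comm]
  refine mul_le_mul_of_nonneg_left ?_ (Nat.cast_nonneg _)
  have h1 : x ^ F.dp V ≤ x ^ s.1 := pow_le_pow_of_le_one (hc.trans hx) hx1 (by omega)
  have h2 : y ^ F.dq V ≤ y ^ s.2 := pow_le_pow_of_le_one (hc.trans hy) hy1 (by omega)
  have h3 : c ^ F.dp V ≤ x ^ F.dp V := pow_le_pow_left₀ hc hx _
  have h4 : c ^ F.dq V ≤ y ^ F.dq V := pow_le_pow_left₀ hc hy _
  rw [pow_add]
  exact mul_le_mul (h3.trans h1) (h4.trans h2) (by positivity) (by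
    have : 0 ≤ x := hc.trans hx
    positivity)

theorem eq_of_sq {V W : F.Var} (h : F.Eqv V W) {K r : ℝ} (hr : 0 ≤ r)
    (hrT : r < max (F.ev V 1 1) (F.ev W 1 1))
    (hsq : ∀ n : ℕ, F.sq (F.pow V n) (F.pow W n) ≤ K * (r ^ (n + 1)) ^ 2) (i j : ℕ) :
    F.a V i j = F.a W i j := by
  set T := max (F.ev V 1 1) (F.ev W 1 1) with hT
  set D := F.dp V + F.dq V with hD
  have hDW : F.dp W + F.dq W = D := by rw [hD, F.dp_eq V W h, F.dq_eq V W h]
  have hK : 0 ≤ K * (r ^ 1) ^ 2 := by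
    refine le_trans ?_ (hsq 0)
    unfold sq
    exact Finset.sum_nonneg fun s _ => sq_nonneg _
  -- a point near one
  obtain ⟨c, hc0, hc1, hcT⟩ : ∃ c : ℝ, 0 < c ∧ c < 1 ∧ r < c ^ D * T := by
    have hcont : Filter.Tendsto (fun c : ℝ => c ^ D * T) (nhdsWithin 1 (Set.Iio 1))
        (nhds (1 ^ D * T)) :=
      ((continuous_pow D).mul continuous_const).continuousWithinAt.tendsto
    rw [one_pow, one_mul] at hcont
    have h1 := hcont.eventually (lt_mem_nhds hrT)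
    have h2 : ∀ᶠ c : ℝ in nhdsWithin 1 (Set.Iio 1), c < 1 := eventually_mem_nhdsWithin
    have h3 : ∀ᶠ c : ℝ in nhdsWithin 1 (Set.Iio 1), 0 < c :=
      (lt_mem_nhds (show (0 : ℝ) < 1 by norm_num)).filter_mono nhdsWithin_le_nhds
    obtain ⟨c, hc⟩ := (h1.and (h2.and h3)).exists
    exact ⟨c, hc.2.2, hc.2.1, hc.1⟩
  refine F.eq_of_ev (S := Set.Ioo c 1) (Set.Ioo_infinite hc1) (fun x hx y hy => ?_) i j
  have hx0 : 0 ≤ x := hc0.le.trans hx.1.le
  have hy0 : 0 ≤ y := hc0.le.trans hy.1.le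
  have hmax : r < max (F.ev V x y) (F.ev W x y) := by
    refine hcT.trans_le ?_
    have h1 := F.ev_ge V hc0.le hx.1.le hx.2.le hy.1.le hy.2.le
    have h2 := F.ev_ge W hc0.le hx.1.le hx.2.le hy.1.le hy.2.le
    rw [hDW] at h2
    rcases le_total (F.ev V 1 1) (F.ev W 1 1) with h3 | h3
    · rw [hT, max_eq_right h3]
      exact h2.trans (le_max_right _ _)
    · rw [hT, max_eq_left h3]
      exact h1.trans (le_max_left _ _)
  refine eq_of_pow_close (K := ((F.dp V + 1) * (F.dq V + 1) : ℕ) * K) (F.ev_nonneg V hx0 hy0)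
    (F.ev_nonneg W hx0 hy0) hr hmax fun n => ?_
  rw [← F.ev_pow, ← F.ev_pow]
  refine (F.ev_sub_sq_le (F.eqv_pow h n) hx0 hx.2.le hy0 hy.2.le).trans ?_
  rw [F.dp_pow, F.dq_pow]
  have h1 : ((((n + 1) * F.dp V + 1) * ((n + 1) * F.dq V + 1) : ℕ) : ℝ) ≤
      ((F.dp V + 1) * (F.dq V + 1) : ℕ) * ((n + 1 : ℕ) : ℝ) ^ 2 := by
    have h2 : ((n + 1) * F.dp V + 1) * ((n + 1) * F.dq V + 1) ≤
        (F.dp V + 1) * (F.dq V + 1) * (n + 1) ^ 2 := by
      calc ((n + 1) * F.dp V + 1) * ((n + 1) * F.dq V + 1)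
          ≤ ((n + 1) * F.dp V + (n + 1)) * ((n + 1) * F.dq V + (n + 1)) :=
            Nat.mul_le_mul (by omega) (by omega)
        _ = _ := by ring
    exact_mod_cast h2
  have h3 : 0 ≤ F.sq (F.pow V n) (F.pow W n) := by
    unfold sq
    exact Finset.sum_nonneg fun s _ => sq_nonneg _
  refine (mul_le_mul_of_nonneg_right h1 h3).trans ?_
  refine (mul_le_mul_of_nonneg_left (hsq n) (by positivity)).trans (le_of_eq ?_)
  ring

/-- the middle numbers agree up to an error -/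
def MidUpTo (err : ℕ → ℝ → ℝ) : Prop := ∀ V W, F.Eqv V W → ∀ m k, F.dp V = 2 * m → F.dq V = 2 * k →
  |(F.a V m k : ℝ) - F.a W m k| ≤ err (F.dq V) (F.a V m k)

theorem sq_le_of_mid (hD : F.Dual) {err : ℕ → ℝ → ℝ} (hmid : F.MidUpTo err) {V W : F.Var}
    (h : F.Eqv V W) {B : ℝ}
    (hB : ∀ t, 0 ≤ t → t ≤ (max (F.ev V 1 1) (F.ev W 1 1)) ^ 2 → err (2 * F.dq V) t ≤ B) :
    F.sq V W ≤ 2 * B := by
  have key : ∀ X Y : F.Var, F.Eqv X Y → F.dp X = F.dp V → F.dq X = F.dq V →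
      F.ev X 1 1 ≤ max (F.ev V 1 1) (F.ev W 1 1) → F.ip X X - F.ip Y X ≤ B := by
    intro X Y hXY hdp hdq hX
    have h1 := hmid _ _ (F.eqv_prod _ _ _ _ hXY (F.refl X)) (F.dp X) (F.dq X)
      (by rw [F.dp_prod]; ring) (by rw [F.dq_prod]; ring)
    have h2 := F.mid_prod hD (F.refl X)
    have h3 := F.mid_prod hD (F.symm _ _ hXY)
    rw [← F.dp_eq X Y hXY, ← F.dq_eq X Y hXY] at h3
    rw [h2, h3, F.dq_prod, ← two_mul, hdq] at h1
    refine (le_abs_self _).trans (h1.trans (hB _ ?_ ?_))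
    · unfold ip
      exact Finset.sum_nonneg fun s _ => by positivity
    · refine (F.ip_le X).trans ?_
      exact pow_le_pow_left₀ (F.ev_nonneg X zero_le_one zero_le_one) hX 2
  rw [F.sq_eq h]
  have h1 := key V W h rfl rfl (le_max_left _ _)
  have h2 := key W V (F.symm _ _ h) (F.dp_eq V W h).symm (F.dq_eq V W h).symm (le_max_right _ _)
  linarith

theorem two_le_ev (hD : F.Dual) {V : F.Var} (hV : 0 < F.dq V) : 2 ≤ F.ev V 1 1 := by
  rw [F.ev_eq]
  simp only [one_pow, mul_one]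
  have h1 : ({(0, 0), (F.dp V, F.dq V)} : Finset (ℕ × ℕ)) ⊆ F.ind V := by
    intro s hs
    rw [Finset.mem_insert, Finset.mem_singleton] at hs
    unfold ind
    rw [Finset.mem_product, Finset.mem_range, Finset.mem_range]
    rcases hs with rfl | rfl
    · exact ⟨by simp, by simp⟩
    · exact ⟨by simp, by simp⟩
  refine le_trans ?_ (Finset.sum_le_sum_of_subset_of_nonneg h1 fun s _ _ => Nat.cast_nonneg _)
  rw [Finset.sum_pair (by
    intro h
    have := congrArg Prod.snd h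
    simp at this
    omega)]
  have h2 := hD V 0 0 (Nat.zero_le _) (Nat.zero_le _)
  rw [Nat.sub_zero, Nat.sub_zero, F.one] at h2
  rw [F.one, h2]
  norm_num

/-- an error term for which the middle numbers decide -/
def Small (err : ℕ → ℝ → ℝ) : Prop := ∀ (d : ℕ) (T : ℝ), 0 < d → 2 ≤ T → ∃ K r : ℝ, 0 ≤ r ∧ r < T ∧
  ∀ (n : ℕ) (t : ℝ), 0 ≤ t → t ≤ (T ^ (n + 1)) ^ 2 → err (2 * ((n + 1) * d)) t ≤ K * (r ^ (n + 1)) ^ 2

theorem eq_of_mid (hD : F.Dual) {err : ℕ → ℝ → ℝ} (he : Small err) (hmid : F.MidUpTo err)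
    {V W : F.Var} (h : F.Eqv V W) (i j : ℕ) : F.a V i j = F.a W i j := by
  rcases Nat.eq_zero_or_pos (F.dq V) with hd | hd
  · have hdp : F.dp V = 0 := by have := F.dp_le V; omega
    by_cases hij : i = 0 ∧ j = 0
    · rw [hij.1, hij.2, F.one, F.one]
    · rw [F.vanishing V i j (by omega), F.vanishing W i j
        (by rw [← F.dp_eq V W h, ← F.dq_eq V W h]; omega)]
  · have hT : 2 ≤ max (F.ev V 1 1) (F.ev W 1 1) := (F.two_le_ev hD hd).trans (le_max_left _ _)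
    obtain ⟨K, r, hr, hrT, hall⟩ := he (F.dq V) _ hd hT
    refine F.eq_of_sq h (K := 2 * K) hr hrT (fun n => ?_) i j
    rw [mul_assoc]
    refine F.sq_le_of_mid hD hmid (F.eqv_pow h n) fun t ht0 ht => ?_
    rw [F.dq_pow]
    refine hall n t ht0 (ht.trans (le_of_eq ?_))
    rw [F.ev_pow, F.ev_pow]
    congr 1
    rcases le_total (F.ev V 1 1) (F.ev W 1 1) with h3 | h3
    · rw [max_eq_right h3, max_eq_right (pow_le_pow_left₀ (F.ev_nonneg V zero_le_one zero_le_one) h3 _)]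
    · rw [max_eq_left h3, max_eq_left (pow_le_pow_left₀ (F.ev_nonneg W zero_le_one zero_le_one) h3 _)]

theorem small_power {C δ : ℝ} (hδ : 0 < δ) (hδ1 : δ < 1) : Small fun _ t => C * t ^ (1 - δ) := by
  intro d T _ hT
  have hT0 : 0 < T := by linarith
  refine ⟨|C|, T ^ (1 - δ), by positivity, ?_, fun n t ht0 ht => ?_⟩
  · calc T ^ (1 - δ) < T ^ (1 : ℝ) := Real.rpow_lt_rpow_of_exponent_lt (by linarith) (by linarith)
      _ = T := Real.rpow_one T
  · have h1 : t ^ (1 - δ) ≤ ((T ^ (1 - δ)) ^ (n + 1)) ^ 2 := by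
      refine (Real.rpow_le_rpow ht0 ht (by linarith)).trans (le_of_eq ?_)
      rw [← pow_mul, ← pow_mul, ← Real.rpow_natCast, ← Real.rpow_natCast, ← Real.rpow_mul hT0.le,
        ← Real.rpow_mul hT0.le, mul_comm]
    calc C * t ^ (1 - δ) ≤ |C| * t ^ (1 - δ) :=
          mul_le_mul_of_nonneg_right (le_abs_self C) (by positivity)
      _ ≤ _ := mul_le_mul_of_nonneg_left h1 (abs_nonneg C)

theorem small_exp {C δ : ℝ} (hδ : 0 < δ) : Small fun d t => C * Real.exp (-(δ * d)) * t := by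
  intro d T hd hT
  have hT0 : 0 < T := by linarith
  have hd' : (0 : ℝ) < d := by exact_mod_cast hd
  refine ⟨|C|, Real.exp (-(δ * d)) * T, by positivity, ?_, fun n t ht0 ht => ?_⟩
  · have h1 : Real.exp (-(δ * d)) < 1 := by
      rw [Real.exp_lt_one_iff]
      have : 0 < δ * d := by positivity
      linarith
    nlinarith
  · have h2 : Real.exp (-(δ * ((2 * ((n + 1) * d) : ℕ) : ℝ))) = (Real.exp (-(δ * d)) ^ (n + 1)) ^ 2 := by
      rw [← Real.exp_nat_mul, ← Real.exp_nat_mul]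
      congr 1
      push_cast
      ring
    beta_reduce
    rw [h2, mul_pow, mul_pow]
    calc C * (Real.exp (-(δ * d)) ^ (n + 1)) ^ 2 * t
        ≤ |C| * (Real.exp (-(δ * d)) ^ (n + 1)) ^ 2 * t := by
          refine mul_le_mul_of_nonneg_right (mul_le_mul_of_nonneg_right (le_abs_self C) ?_) ht0
          positivity
      _ ≤ |C| * (Real.exp (-(δ * d)) ^ (n + 1)) ^ 2 * (T ^ (n + 1)) ^ 2 :=
          mul_le_mul_of_nonneg_left ht (by positivity)
      _ = _ := by ring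

/-- the numbers agree up to a subexponential factor -/
def SubExp : Prop := ∀ ε : ℝ, 0 < ε → ∃ C : ℝ, ∀ V W, F.Eqv V W → ∀ p q,
  (F.a V p q : ℝ) ≤ C * Real.exp (ε * F.dq V) * F.a W p q

theorem ev_le_of_subExp (hs : F.SubExp) {V W : F.Var} (h : F.Eqv V W) {x y : ℝ} (hx : 0 ≤ x)
    (hy : 0 ≤ y) : F.ev V x y ≤ F.ev W x y := by
  have key : ∀ ε : ℝ, 0 < ε → F.ev V x y ≤ Real.exp (ε * F.dq V) * F.ev W x y := by
    intro ε hε
    obtain ⟨C, hC⟩ := hs ε hε
    refine le_of_pow_le (C := C) (F.ev_nonneg V hx hy)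
      (mul_nonneg (Real.exp_pos _).le (F.ev_nonneg W hx hy)) fun n => ?_
    rw [mul_pow, ← F.ev_pow, ← F.ev_pow, F.ev_eq, F.ev_eq, ← F.ind_eq (F.eqv_pow h n),
      ← mul_assoc, Finset.mul_sum]
    refine Finset.sum_le_sum fun s _ => ?_
    have h1 := hC _ _ (F.eqv_pow h n) s.1 s.2
    have h2 : Real.exp (ε * F.dq (F.pow V n)) = Real.exp (ε * F.dq V) ^ (n + 1) := by
      rw [F.dq_pow, ← Real.exp_nat_mul]
      congr 1
      push_cast
      ring
    rw [h2] at h1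
    have h3 : 0 ≤ x ^ s.1 * y ^ s.2 := by positivity
    calc (F.a (F.pow V n) s.1 s.2 : ℝ) * (x ^ s.1 * y ^ s.2)
        ≤ (C * Real.exp (ε * F.dq V) ^ (n + 1) * F.a (F.pow W n) s.1 s.2) * (x ^ s.1 * y ^ s.2) :=
          mul_le_mul_of_nonneg_right h1 h3
      _ = _ := by ring
  have hcont : Filter.Tendsto (fun ε : ℝ => Real.exp (ε * F.dq V) * F.ev W x y)
      (nhdsWithin 0 (Set.Ioi 0)) (nhds (Real.exp (0 * F.dq V) * F.ev W x y)) := by
    have hc : Continuous fun ε : ℝ => Real.exp (ε * F.dq V) * F.ev W x y := by fun_prop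
    exact hc.continuousWithinAt.tendsto
  rw [zero_mul, Real.exp_zero, one_mul] at hcont
  exact ge_of_tendsto hcont (Filter.eventually_of_mem self_mem_nhdsWithin fun ε hε => key ε hε)

theorem eq_of_subExp (hs : F.SubExp) {V W : F.Var} (h : F.Eqv V W) (i j : ℕ) :
    F.a V i j = F.a W i j :=
  F.eq_of_ev (S := Set.Ioi 0) (Set.Ioi_infinite 0) (fun _ hx _ hy => le_antisymm
    (F.ev_le_of_subExp hs h (le_of_lt hx) (le_of_lt hy))
    (F.ev_le_of_subExp hs (F.symm _ _ h) (le_of_lt hx) (le_of_lt hy))) i j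

end Fam

end Pool.Agent.Run7.h604.HN
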