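import Mathlib

/-!
# A class of smooth projective varieties closed under products, with the Hodge numbers and derived equivalence
-/

set_option autoImplicit false

namespace Pool.Agent.Run7.h604.HN

universe u

/-- A class of (connected) smooth projective complex varieties closed under products, with the Hodge numbers
`h V p q = dim H ^ q (V, Ω ^ p)` and the relation of derived equivalence. -/
structure HodgeClass where
  /-- the varieties of the class -/
  Var : Type u
  /-- the dimension -/
  dim : Var → ℕ
  /-- the Hodge numbers -/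
  h : Var → ℕ → ℕ → ℕ
  connected : ∀ V, h V 0 0 = 1
  vanishing : ∀ V p q, dim V < p ∨ dim V < q → h V p q = 0
  /-- Serre duality -/
  serre : ∀ V p q, p ≤ dim V → q ≤ dim V → h V (dim V - p) (dim V - q) = h V p q
  /-- the product of two varieties -/
  prod : Var → Var → Var
  dim_prod : ∀ V W, dim (prod V W) = dim V + dim W
  /-- the Künneth formula -/
  kunneth : ∀ V W p q, h (prod V W) p q =
    ∑ i ∈ Finset.range (p + 1), ∑ j ∈ Finset.range (q + 1), h V i j * h W (p - i) (q - j)
  /-- `V` and `W` are derived equivalent -/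
  Eqv : Var → Var → Prop
  refl : ∀ V, Eqv V V
  symm : ∀ V W, Eqv V W → Eqv W V
  eqv_prod : ∀ V W V' W', Eqv V W → Eqv V' W' → Eqv (prod V V') (prod W W')
  dim_eq : ∀ V W, Eqv V W → dim V = dim W

namespace HodgeClass

variable (C : HodgeClass.{u})

/-- Derived equivalent varieties have the same Hodge numbers. -/
def Invariant : Prop := ∀ V W, C.Eqv V W → ∀ p q, C.h V p q = C.h W p q

/-- Derived equivalent varieties of dimension `2 m` have the same middle Hodge number `h ^ {m, m}`. -/
def MiddleInvariant : Prop := ∀ V W, C.Eqv V W → ∀ m, C.dim V = 2 * m → C.h V m m = C.h W m m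

/-- For derived equivalent varieties of dimension `2 m` the middle Hodge numbers agree up to a power saving: the
difference is at most `K (h ^ {m, m}) ^ (1 - δ)`, with fixed `δ > 0` and `K`. -/
def MiddlePower : Prop := ∃ δ K : ℝ, 0 < δ ∧ δ < 1 ∧ ∀ V W, C.Eqv V W → ∀ m, C.dim V = 2 * m →
  |(C.h V m m : ℝ) - C.h W m m| ≤ K * (C.h V m m : ℝ) ^ (1 - δ)

/-- For derived equivalent varieties of dimension `2 m` the middle Hodge numbers agree up to an error which is
exponentially small in the dimension: the difference is at most `K exp (- 2 δ m) h ^ {m, m}`, with fixed `δ > 0`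
and `K`. -/
def MiddleExp : Prop := ∃ δ K : ℝ, 0 < δ ∧ ∀ V W, C.Eqv V W → ∀ m, C.dim V = 2 * m →
  |(C.h V m m : ℝ) - C.h W m m| ≤ K * Real.exp (-(δ * C.dim V)) * C.h V m m

/-- The Hodge numbers of derived equivalent varieties `V`, `W` agree up to a factor `exp (o (dim))`: for each
`ε > 0` there is `K` with `h ^ {p, q} (V) ≤ K exp (ε dim V) h ^ {p, q} (W)`. -/
def SubExponential : Prop := ∀ ε : ℝ, 0 < ε → ∃ K : ℝ, ∀ V W, C.Eqv V W → ∀ p q,
  (C.h V p q : ℝ) ≤ K * Real.exp (ε * C.dim V) * C.h W p q

/-- Derived equivalent varieties have the same numbers `h ^ {0, q}`. -/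
def FormsInvariant : Prop := ∀ V W, C.Eqv V W → ∀ q, C.h V 0 q = C.h W 0 q

/-- The numbers `h ^ {0, q}` of derived equivalent varieties agree up to a factor `exp (o (dim))`. -/
def FormsSubExponential : Prop := ∀ ε : ℝ, 0 < ε → ∃ K : ℝ, ∀ V W, C.Eqv V W → ∀ q,
  (C.h V 0 q : ℝ) ≤ K * Real.exp (ε * C.dim V) * C.h W 0 q

/-- `h ^ {0, n - q} = h ^ {0, q}` for all varieties of the class (`n` the dimension); for example the varieties with
trivial canonical bundle -/
def TrivialCanonical : Prop := ∀ V q, q ≤ C.dim V → C.h V 0 (C.dim V - q) = C.h V 0 q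

/-- Derived equivalent varieties of dimension `2 m` have the same number `h ^ {0, m}`. -/
def MiddleFormsInvariant : Prop := ∀ V W, C.Eqv V W → ∀ m, C.dim V = 2 * m → C.h V 0 m = C.h W 0 m

/-- For derived equivalent varieties of dimension `2 m` the numbers `h ^ {0, m}` agree up to a power saving. -/
def MiddleFormsPower : Prop := ∃ δ K : ℝ, 0 < δ ∧ δ < 1 ∧ ∀ V W, C.Eqv V W → ∀ m, C.dim V = 2 * m →
  |(C.h V 0 m : ℝ) - C.h W 0 m| ≤ K * (C.h V 0 m : ℝ) ^ (1 - δ)

end HodgeClass

end Pool.Agent.Run7.h604.HN
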