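import Mathlib

/-!
# Multiplicative families of bigraded numbers with an equivalence relation
-/

set_option autoImplicit false

namespace Pool.Agent.Run7.h604.HN

open Polynomial

universe u

/-- bigraded numbers, multiplicative for products -/
structure Fam where
  Var : Type u
  prod : Var → Var → Var
  dp : Var → ℕ
  dq : Var → ℕ
  a : Var → ℕ → ℕ → ℕ
  Eqv : Var → Var → Prop
  dp_prod : ∀ V W, dp (prod V W) = dp V + dp W
  dq_prod : ∀ V W, dq (prod V W) = dq V + dq W
  dp_le : ∀ V, dp V ≤ dq V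
  vanishing : ∀ V p q, dp V < p ∨ dq V < q → a V p q = 0
  one : ∀ V, a V 0 0 = 1
  kunneth : ∀ V W p q, a (prod V W) p q =
    ∑ i ∈ Finset.range (p + 1), ∑ j ∈ Finset.range (q + 1), a V i j * a W (p - i) (q - j)
  refl : ∀ V, Eqv V V
  symm : ∀ V W, Eqv V W → Eqv W V
  eqv_prod : ∀ V W V' W', Eqv V W → Eqv V' W' → Eqv (prod V V') (prod W W')
  dp_eq : ∀ V W, Eqv V W → dp V = dp W
  dq_eq : ∀ V W, Eqv V W → dq V = dq W

namespace Fam

variable (F : Fam.{u})

/-- the generating polynomial -/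
noncomputable def poly (V : F.Var) : ℝ[X][X] :=
  ∑ j ∈ Finset.range (F.dq V + 1), C (∑ i ∈ Finset.range (F.dp V + 1), C (F.a V i j : ℝ) * X ^ i) * X ^ j

theorem coeff_poly (V : F.Var) (i j : ℕ) : ((F.poly V).coeff j).coeff i = F.a V i j := by
  unfold poly
  rw [Polynomial.finsetSum_coeff]
  simp only [coeff_C_mul, coeff_X_pow]
  by_cases hj : j < F.dq V + 1
  · rw [Finset.sum_eq_single j]
    · rw [if_pos rfl, mul_one, Polynomial.finsetSum_coeff]
      simp only [coeff_C_mul, coeff_X_pow]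
      by_cases hi : i < F.dp V + 1
      · rw [Finset.sum_eq_single i]
        · rw [if_pos rfl, mul_one]
        · intro b _ hb
          rw [if_neg (Ne.symm hb), mul_zero]
        · intro h
          exact absurd (Finset.mem_range.2 hi) h
      · rw [F.vanishing V i j (Or.inl (by omega)), Nat.cast_zero]
        refine Finset.sum_eq_zero fun b hb => ?_
        rw [if_neg (by rw [Finset.mem_range] at hb; omega), mul_zero]
    · intro b _ hb
      rw [if_neg (Ne.symm hb), mul_zero]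
    · intro h
      exact absurd (Finset.mem_range.2 hj) h
  · rw [F.vanishing V i j (Or.inr (by omega)), Nat.cast_zero]
    have h0 : ∑ x ∈ Finset.range (F.dq V + 1), (∑ i ∈ Finset.range (F.dp V + 1),
        C (F.a V i x : ℝ) * X ^ i) * (if j = x then (1 : ℝ[X]) else 0) = 0 := by
      refine Finset.sum_eq_zero fun b hb => ?_
      rw [if_neg (by rw [Finset.mem_range] at hb; omega), mul_zero]
    rw [h0, coeff_zero]

theorem poly_prod (V W : F.Var) : F.poly (F.prod V W) = F.poly V * F.poly W := by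
  refine Polynomial.ext fun j => Polynomial.ext fun i => ?_
  rw [F.coeff_poly, F.kunneth, Polynomial.coeff_mul, Polynomial.finsetSum_coeff]
  simp only [Polynomial.coeff_mul, F.coeff_poly]
  push_cast
  rw [Finset.sum_comm, Finset.Nat.sum_antidiagonal_eq_sum_range_succ_mk]
  refine Finset.sum_congr rfl fun j' _ => ?_
  rw [Finset.Nat.sum_antidiagonal_eq_sum_range_succ_mk]

/-- the value of the generating polynomial -/
noncomputable def ev (V : F.Var) (x y : ℝ) : ℝ := ((F.poly V).map (evalRingHom x)).eval y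

theorem ev_prod (V W : F.Var) (x y : ℝ) : F.ev (F.prod V W) x y = F.ev V x y * F.ev W x y := by
  unfold ev
  rw [F.poly_prod, Polynomial.map_mul, Polynomial.eval_mul]

/-- the indices -/
def ind (V : F.Var) : Finset (ℕ × ℕ) := Finset.range (F.dp V + 1) ×ˢ Finset.range (F.dq V + 1)

theorem ev_eq (V : F.Var) (x y : ℝ) :
    F.ev V x y = ∑ s ∈ F.ind V, (F.a V s.1 s.2 : ℝ) * (x ^ s.1 * y ^ s.2) := by
  unfold ev poly ind
  rw [Finset.sum_product_right]
  simp only [Polynomial.map_sum, Polynomial.map_mul, Polynomial.map_C, Polynomial.map_pow,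
    Polynomial.map_X, Polynomial.eval_finsetSum, Polynomial.eval_mul, Polynomial.eval_C,
    Polynomial.eval_pow, Polynomial.eval_X, coe_evalRingHom, Polynomial.eval_finsetSum,
    Finset.sum_mul]
  refine Finset.sum_congr rfl fun j _ => Finset.sum_congr rfl fun i _ => ?_
  ring

theorem eq_of_ev {V W : F.Var} {S : Set ℝ} (hS : S.Infinite)
    (h : ∀ x ∈ S, ∀ y ∈ S, F.ev V x y = F.ev W x y) (i j : ℕ) : F.a V i j = F.a W i j := by
  have h1 : (F.poly V).coeff j = (F.poly W).coeff j := by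
    refine Polynomial.eq_of_infinite_eval_eq _ _ (hS.mono fun x hx => ?_)
    have h2 : (F.poly V).map (evalRingHom x) = (F.poly W).map (evalRingHom x) :=
      Polynomial.eq_of_infinite_eval_eq _ _ (hS.mono fun y hy => h x hx y hy)
    have h3 := congrArg (fun p => p.coeff j) h2
    simpa using h3
  have h2 := congrArg (fun p => p.coeff i) h1
  simp only [F.coeff_poly] at h2
  exact_mod_cast h2

/-- the power `V ^ (n + 1)` -/
def pow (V : F.Var) : ℕ → F.Var
  | 0 => V
  | n + 1 => F.prod (pow V n) V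

theorem ev_pow (V : F.Var) (n : ℕ) (x y : ℝ) : F.ev (F.pow V n) x y = F.ev V x y ^ (n + 1) := by
  induction n with
  | zero => rw [zero_add, pow_one]; rfl
  | succ n ih => rw [_root_.pow_succ, ← ih, ← F.ev_prod]; rfl

theorem dp_pow (V : F.Var) (n : ℕ) : F.dp (F.pow V n) = (n + 1) * F.dp V := by
  induction n with
  | zero => rw [zero_add, one_mul]; rfl
  | succ n ih =>
    have h : F.dp (F.pow V (n + 1)) = F.dp (F.pow V n) + F.dp V := F.dp_prod _ _
    rw [h, ih]
    ring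

theorem dq_pow (V : F.Var) (n : ℕ) : F.dq (F.pow V n) = (n + 1) * F.dq V := by
  induction n with
  | zero => rw [zero_add, one_mul]; rfl
  | succ n ih =>
    have h : F.dq (F.pow V (n + 1)) = F.dq (F.pow V n) + F.dq V := F.dq_prod _ _
    rw [h, ih]
    ring

theorem eqv_pow {V W : F.Var} (h : F.Eqv V W) (n : ℕ) : F.Eqv (F.pow V n) (F.pow W n) := by
  induction n with
  | zero => exact h
  | succ n ih => exact F.eqv_prod _ _ _ _ ih h

theorem ev_nonneg (V : F.Var) {x y : ℝ} (hx : 0 ≤ x) (hy : 0 ≤ y) : 0 ≤ F.ev V x y := by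
  rw [F.ev_eq]
  exact Finset.sum_nonneg fun s _ => by positivity

theorem one_le_ev (V : F.Var) {x y : ℝ} (hx : 0 ≤ x) (hy : 0 ≤ y) : 1 ≤ F.ev V x y := by
  rw [F.ev_eq]
  refine le_trans ?_ (Finset.single_le_sum (f := fun s : ℕ × ℕ => (F.a V s.1 s.2 : ℝ) *
    (x ^ s.1 * y ^ s.2)) (fun s _ => by positivity) (Finset.mem_product.2
      ⟨Finset.mem_range.2 (Nat.succ_pos _), Finset.mem_range.2 (Nat.succ_pos _)⟩ :
      ((0, 0) : ℕ × ℕ) ∈ F.ind V))
  simp [F.one]

/-- the symmetry -/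
def Dual : Prop := ∀ V p q, p ≤ F.dp V → q ≤ F.dq V → F.a V (F.dp V - p) (F.dq V - q) = F.a V p q

/-- the inner product -/
def ip (V W : F.Var) : ℝ := ∑ s ∈ F.ind V, (F.a V s.1 s.2 : ℝ) * F.a W s.1 s.2

theorem ind_eq {V W : F.Var} (h : F.Eqv V W) : F.ind V = F.ind W := by
  unfold ind
  rw [F.dp_eq V W h, F.dq_eq V W h]

/-- the middle number of a product -/
theorem mid_prod (hD : F.Dual) {V W : F.Var} (h : F.Eqv V W) :
    (F.a (F.prod V W) (F.dp V) (F.dq V) : ℝ) = F.ip V W := by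
  unfold ip ind
  rw [F.kunneth, Finset.sum_product]
  push_cast
  refine Finset.sum_congr rfl fun i hi => Finset.sum_congr rfl fun j hj => ?_
  rw [Finset.mem_range] at hi hj
  have h1 := hD W i j (by rw [← F.dp_eq V W h]; omega) (by rw [← F.dq_eq V W h]; omega)
  rw [← F.dp_eq V W h, ← F.dq_eq V W h] at h1
  rw [h1]

/-- the sum of the squares of the differences -/
noncomputable def sq (V W : F.Var) : ℝ := ∑ s ∈ F.ind V, ((F.a V s.1 s.2 : ℝ) - F.a W s.1 s.2) ^ 2

theorem sq_eq {V W : F.Var} (h : F.Eqv V W) : F.sq V W = (F.ip V V - F.ip W V) + (F.ip W W - F.ip V W) := by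
  unfold sq ip
  rw [← F.ind_eq h, ← Finset.sum_sub_distrib, ← Finset.sum_sub_distrib, ← Finset.sum_add_distrib]
  refine Finset.sum_congr rfl fun s _ => ?_
  ring

theorem ip_le (V : F.Var) : F.ip V V ≤ F.ev V 1 1 ^ 2 := by
  unfold ip
  rw [F.ev_eq]
  simp only [one_pow, mul_one]
  rw [_root_.sq, Finset.sum_mul_sum]
  refine Finset.sum_le_sum fun s hs => ?_
  exact Finset.single_le_sum (f := fun t : ℕ × ℕ => (F.a V s.1 s.2 : ℝ) * F.a V t.1 t.2)
    (fun t _ => by positivity) hs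

theorem ev_sub_sq_le {V W : F.Var} (h : F.Eqv V W) {x y : ℝ} (hx : 0 ≤ x) (hx1 : x ≤ 1) (hy : 0 ≤ y)
    (hy1 : y ≤ 1) : (F.ev V x y - F.ev W x y) ^ 2 ≤ ((F.dp V + 1) * (F.dq V + 1) : ℕ) * F.sq V W := by
  rw [F.ev_eq, F.ev_eq, ← F.ind_eq h, ← Finset.sum_sub_distrib]
  have h1 : ((∑ s ∈ F.ind V, ((F.a V s.1 s.2 : ℝ) * (x ^ s.1 * y ^ s.2) -
      F.a W s.1 s.2 * (x ^ s.1 * y ^ s.2))) ^ 2) ≤ (F.ind V).card *
        ∑ s ∈ F.ind V, ((F.a V s.1 s.2 : ℝ) * (x ^ s.1 * y ^ s.2) -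
          F.a W s.1 s.2 * (x ^ s.1 * y ^ s.2)) ^ 2 := sq_sum_le_card_mul_sum_sq
  have h2 : (F.ind V).card = (F.dp V + 1) * (F.dq V + 1) := by
    unfold ind
    rw [Finset.card_product, Finset.card_range, Finset.card_range]
  rw [h2] at h1
  refine h1.trans (mul_le_mul_of_nonneg_left ?_ (Nat.cast_nonneg _))
  unfold sq
  refine Finset.sum_le_sum fun s _ => ?_
  rw [← sub_mul, mul_pow]
  have h3 : 0 ≤ x ^ s.1 * y ^ s.2 := by positivity
  have h4 : x ^ s.1 * y ^ s.2 ≤ 1 := mul_le_one₀ (pow_le_one₀ hx hx1) (by positivity)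
    (pow_le_one₀ hy hy1)
  exact mul_le_of_le_one_right (sq_nonneg _) (pow_le_one₀ h3 h4)

end Fam

/-- two numbers with close powers are equal -/
theorem eq_of_pow_close {a b r K : ℝ} (ha : 0 ≤ a) (hb : 0 ≤ b) (hr : 0 ≤ r) (hrM : r < max a b)
    (h : ∀ n : ℕ, (a ^ (n + 1) - b ^ (n + 1)) ^ 2 ≤ K * ((n + 1 : ℕ) * r ^ (n + 1)) ^ 2) : a = b := by
  set M := max a b with hM
  have hM0 : 0 < M := hr.trans_lt hrM
  have hlow : ∀ n : ℕ, |a - b| * M ^ n ≤ |a ^ (n + 1) - b ^ (n + 1)| := by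
    intro n
    rcases le_total b a with hba | hab
    · have e : M = a := max_eq_left hba
      rw [e, abs_of_nonneg (sub_nonneg.2 hba), abs_of_nonneg (sub_nonneg.2 (pow_le_pow_left₀ hb hba _))]
      have h1 : b ^ n ≤ a ^ n := pow_le_pow_left₀ hb hba n
      have h2 : b * b ^ n ≤ b * a ^ n := mul_le_mul_of_nonneg_left h1 hb
      rw [pow_succ' a n, pow_succ' b n]
      linarith
    · have e : M = b := max_eq_right hab
      rw [e, abs_sub_comm, abs_sub_comm (a ^ (n + 1)), abs_of_nonneg (sub_nonneg.2 hab),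
        abs_of_nonneg (sub_nonneg.2 (pow_le_pow_left₀ ha hab _))]
      have h1 : a ^ n ≤ b ^ n := pow_le_pow_left₀ ha hab n
      have h2 : a * a ^ n ≤ a * b ^ n := mul_le_mul_of_nonneg_left h1 ha
      rw [pow_succ' a n, pow_succ' b n]
      linarith
  have hq0 : 0 ≤ r / M := by positivity
  have hq1 : r / M < 1 := (div_lt_one hM0).2 hrM
  have hup : ∀ n : ℕ, (a - b) ^ 2 ≤ K * r ^ 2 * (((n : ℝ) + 1) * (r / M) ^ n) ^ 2 := by
    intro n
    have h1 := hlow n
    have h2 : (|a - b| * M ^ n) ^ 2 ≤ (a ^ (n + 1) - b ^ (n + 1)) ^ 2 := by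
      rw [← sq_abs (a ^ (n + 1) - b ^ (n + 1))]
      exact pow_le_pow_left₀ (by positivity) h1 2
    have h3 := h2.trans (h n)
    rw [mul_pow, sq_abs] at h3
    have h4 : (0 : ℝ) < (M ^ n) ^ 2 := by positivity
    have h5 : K * (((n + 1 : ℕ) : ℝ) * r ^ (n + 1)) ^ 2 =
        (K * r ^ 2 * (((n : ℝ) + 1) * (r / M) ^ n) ^ 2) * (M ^ n) ^ 2 := by
      push_cast
      rw [div_pow]
      field_simp
      ring
    rw [h5] at h3
    exact le_of_mul_le_mul_right h3 h4
  have hlim : Filter.Tendsto (fun n : ℕ => K * r ^ 2 * (((n : ℝ) + 1) * (r / M) ^ n) ^ 2) Filter.atTop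
      (nhds 0) := by
    have h1 : Filter.Tendsto (fun n : ℕ => (n : ℝ) * (r / M) ^ n) Filter.atTop (nhds 0) :=
      tendsto_self_mul_const_pow_of_lt_one hq0 hq1
    have h2 : Filter.Tendsto (fun n : ℕ => (r / M) ^ n) Filter.atTop (nhds 0) :=
      tendsto_pow_atTop_nhds_zero_of_lt_one hq0 hq1
    have h3 := ((h1.add h2).pow 2).const_mul (K * r ^ 2)
    simp only [add_zero, ne_eq, OfNat.ofNat_ne_zero, not_false_eq_true, zero_pow, mul_zero] at h3
    refine h3.congr fun n => ?_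
    ring
  have h1 : (a - b) ^ 2 ≤ 0 := ge_of_tendsto' hlim hup
  have h2 : a - b = 0 := by
    have h3 : (a - b) ^ 2 = 0 := le_antisymm h1 (sq_nonneg _)
    exact pow_eq_zero_iff (two_ne_zero) |>.1 h3
  linarith

/-- an exponential comparison -/
theorem le_of_pow_le {x y C : ℝ} (hx : 0 ≤ x) (hy : 0 ≤ y)
    (h : ∀ n : ℕ, x ^ (n + 1) ≤ C * y ^ (n + 1)) : x ≤ y := by
  by_contra hcon
  push Not at hcon
  rcases hy.eq_or_lt with h0 | h0
  · have h1 := h 0
    rw [← h0] at h1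
    simp at h1
    rw [← h0] at hcon
    linarith
  · have hq : 1 < x / y := (one_lt_div h0).2 hcon
    have h1 : ∀ n : ℕ, (x / y) ^ (n + 1) ≤ C := by
      intro n
      rw [div_pow, div_le_iff₀ (by positivity)]
      exact h n
    have h2 : Filter.Tendsto (fun n : ℕ => (x / y) ^ (n + 1)) Filter.atTop Filter.atTop :=
      (tendsto_pow_atTop_atTop_of_one_lt hq).comp (Filter.tendsto_add_atTop_nat 1)
    obtain ⟨n, hn⟩ := (h2.eventually_gt_atTop C).exists
    exact absurd (h1 n) (not_le.2 hn)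

end Pool.Agent.Run7.h604.HN
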