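import Pool.Agent.Run7.h604.HN.Core
import Pool.Agent.Run7.h604.HN.Defs

/-!
# The law for the Hodge numbers
-/

set_option autoImplicit false

namespace Pool.Agent.Run7.h604.HN

universe u

namespace HodgeClass

variable (C : HodgeClass.{u})

/-- all Hodge numbers -/
def fam : Fam.{u} where
  Var := C.Var
  prod := C.prod
  dp := C.dim
  dq := C.dim
  a := C.h
  Eqv := C.Eqv
  dp_prod := C.dim_prod
  dq_prod := C.dim_prod
  dp_le _ := le_rfl
  vanishing := C.vanishing
  one := C.connected
  kunneth := C.kunneth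
  refl := C.refl
  symm := C.symm
  eqv_prod := C.eqv_prod
  dp_eq := C.dim_eq
  dq_eq := C.dim_eq

/-- the numbers `h ^ {0, q}` -/
def forms : Fam.{u} where
  Var := C.Var
  prod := C.prod
  dp _ := 0
  dq := C.dim
  a V p q := if p = 0 then C.h V 0 q else 0
  Eqv := C.Eqv
  dp_prod _ _ := rfl
  dq_prod := C.dim_prod
  dp_le _ := Nat.zero_le _
  vanishing V p q hpq := by
    rcases hpq with h | h
    · rw [if_neg (by omega)]
    · by_cases hp : p = 0
      · rw [if_pos hp]
        exact C.vanishing V 0 q (Or.inr h)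
      · rw [if_neg hp]
  one V := by
    rw [if_pos rfl]
    exact C.connected V
  kunneth V W p q := by
    by_cases hp : p = 0
    · subst hp
      rw [if_pos rfl, C.kunneth]
      simp
    · rw [if_neg hp]
      symm
      refine Finset.sum_eq_zero fun i hi => Finset.sum_eq_zero fun j _ => ?_
      by_cases h0 : i = 0
      · rw [if_neg (show ¬ p - i = 0 by omega), mul_zero]
      · rw [if_neg h0, zero_mul]
  refl := C.refl
  symm := C.symm
  eqv_prod := C.eqv_prod
  dp_eq _ _ _ := rfl
  dq_eq := C.dim_eq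

theorem fam_dual : C.fam.Dual := C.serre

theorem forms_dual (h : C.TrivialCanonical) : C.forms.Dual := by
  intro V p q hp hq
  have hp0 : p = 0 := Nat.le_zero.1 hp
  subst hp0
  change (if 0 - 0 = 0 then C.h V 0 (C.dim V - q) else 0) = if 0 = 0 then C.h V 0 q else 0
  rw [if_pos rfl, if_pos rfl]
  exact h V q hq

theorem forms_eq {V W : C.Var} (h : ∀ i j, C.forms.a V i j = C.forms.a W i j) (q : ℕ) :
    C.h V 0 q = C.h W 0 q := by
  have h1 := h 0 q
  change (if 0 = 0 then C.h V 0 q else 0) = (if 0 = 0 then C.h W 0 q else 0) at h1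
  rwa [if_pos rfl, if_pos rfl] at h1

/-- the middle Hodge numbers of the four products decide -/
theorem eq_of_pair {V W : C.Var} (hVW : C.Eqv V W)
    (h1 : C.h (C.prod V V) (C.dim V) (C.dim V) = C.h (C.prod W V) (C.dim V) (C.dim V))
    (h2 : C.h (C.prod W W) (C.dim V) (C.dim V) = C.h (C.prod V W) (C.dim V) (C.dim V)) (p q : ℕ) :
    C.h V p q = C.h W p q := by
  have hd : C.dim V = C.dim W := C.dim_eq V W hVW
  have e1 : (C.h (C.prod V V) (C.dim V) (C.dim V) : ℝ) = C.fam.ip V V :=
    C.fam.mid_prod C.fam_dual (C.refl V)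
  have e2 : (C.h (C.prod W V) (C.dim W) (C.dim W) : ℝ) = C.fam.ip W V :=
    C.fam.mid_prod C.fam_dual (C.symm _ _ hVW)
  have e3 : (C.h (C.prod W W) (C.dim W) (C.dim W) : ℝ) = C.fam.ip W W :=
    C.fam.mid_prod C.fam_dual (C.refl W)
  have e4 : (C.h (C.prod V W) (C.dim V) (C.dim V) : ℝ) = C.fam.ip V W :=
    C.fam.mid_prod C.fam_dual hVW
  rw [← hd] at e2 e3
  have h3 : C.fam.sq V W = 0 := by
    rw [C.fam.sq_eq hVW, ← e1, ← e2, ← e3, ← e4, h1, h2]
    ring
  unfold Fam.sq at h3
  rw [Finset.sum_eq_zero_iff_of_nonneg (fun s _ => sq_nonneg _)] at h3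
  by_cases hpq : p ≤ C.dim V ∧ q ≤ C.dim V
  · have h4 := h3 (p, q) (Finset.mem_product.2 ⟨Finset.mem_range.2 (Nat.lt_succ_of_le hpq.1),
      Finset.mem_range.2 (Nat.lt_succ_of_le hpq.2)⟩)
    have h5 := pow_eq_zero_iff (two_ne_zero) |>.1 h4
    exact_mod_cast sub_eq_zero.1 h5
  · rw [C.vanishing V p q (by omega), C.vanishing W p q (by rw [← hd]; omega)]

theorem invariant_of_power (h : C.MiddlePower) : C.Invariant := by
  obtain ⟨δ, K, hδ, hδ1, hall⟩ := h
  intro V W hVW p q
  refine C.fam.eq_of_mid C.fam_dual (Fam.small_power (C := K) hδ hδ1) (fun V W hVW m k hm hk => ?_)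
    hVW p q
  have e : m = k := by
    have h1 : C.dim V = 2 * m := hm
    have h2 : C.dim V = 2 * k := hk
    omega
  subst e
  exact hall V W hVW m hm

theorem invariant_of_exp (h : C.MiddleExp) : C.Invariant := by
  obtain ⟨δ, K, hδ, hall⟩ := h
  intro V W hVW p q
  refine C.fam.eq_of_mid C.fam_dual (Fam.small_exp (C := K) hδ) (fun V W hVW m k hm hk => ?_) hVW p q
  have e : m = k := by
    have h1 : C.dim V = 2 * m := hm
    have h2 : C.dim V = 2 * k := hk
    omega
  subst e
  exact hall V W hVW m hm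

theorem invariant_of_subExponential (h : C.SubExponential) : C.Invariant := fun _ _ hVW p q =>
  C.fam.eq_of_subExp h hVW p q

theorem forms_of_subExponential (h : C.FormsSubExponential) : C.FormsInvariant := by
  intro V W hVW q
  refine C.forms_eq (fun i j => C.forms.eq_of_subExp (fun ε hε => ?_) hVW i j) q
  obtain ⟨K, hK⟩ := h ε hε
  refine ⟨K, fun V W hVW p q => ?_⟩
  change ((if p = 0 then C.h V 0 q else 0 : ℕ) : ℝ) ≤ K * Real.exp (ε * C.dim V) *
    ((if p = 0 then C.h W 0 q else 0 : ℕ) : ℝ)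
  by_cases hp : p = 0
  · rw [if_pos hp, if_pos hp]
    exact hK V W hVW q
  · rw [if_neg hp, if_neg hp]
    simp

theorem forms_of_power (hT : C.TrivialCanonical) (h : C.MiddleFormsPower) : C.FormsInvariant := by
  obtain ⟨δ, K, hδ, hδ1, hall⟩ := h
  intro V W hVW q
  refine C.forms_eq (fun i j => C.forms.eq_of_mid (C.forms_dual hT)
    (Fam.small_power (C := K) hδ hδ1) (fun V W hVW m k hm hk => ?_) hVW i j) q
  have hm0 : m = 0 := by
    have h1 : 0 = 2 * m := hm
    omega
  subst hm0
  change |((if 0 = 0 then C.h V 0 k else 0 : ℕ) : ℝ) - ((if 0 = 0 then C.h W 0 k else 0 : ℕ) : ℝ)| ≤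
    K * ((if 0 = 0 then C.h V 0 k else 0 : ℕ) : ℝ) ^ (1 - δ)
  rw [if_pos rfl, if_pos rfl]
  exact hall V W hVW k hk

theorem power_of_middle (h : C.MiddleInvariant) : C.MiddlePower := by
  refine ⟨1 / 2, 0, by norm_num, by norm_num, fun V W hVW m hm => ?_⟩
  rw [h V W hVW m hm]
  simp

theorem exp_of_middle (h : C.MiddleInvariant) : C.MiddleExp := by
  refine ⟨1, 0, one_pos, fun V W hVW m hm => ?_⟩
  rw [h V W hVW m hm]
  simp

theorem subExponential_of_invariant (h : C.Invariant) : C.SubExponential := by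
  intro ε hε
  refine ⟨1, fun V W hVW p q => ?_⟩
  rw [h V W hVW p q, one_mul]
  exact le_mul_of_one_le_left (Nat.cast_nonneg _) (Real.one_le_exp (by positivity))

theorem forms_subExponential (h : C.FormsInvariant) : C.FormsSubExponential := by
  intro ε hε
  refine ⟨1, fun V W hVW q => ?_⟩
  rw [h V W hVW q, one_mul]
  exact le_mul_of_one_le_left (Nat.cast_nonneg _) (Real.one_le_exp (by positivity))

theorem forms_power (h : C.MiddleFormsInvariant) : C.MiddleFormsPower := by
  refine ⟨1 / 2, 0, by norm_num, by norm_num, fun V W hVW m hm => ?_⟩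
  rw [h V W hVW m hm]
  simp

end HodgeClass

end Pool.Agent.Run7.h604.HN
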